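import Pool.Agent.H76.MS.Assemble

set_option autoImplicit false

open Topology Metric

namespace Pool.Agent.Results.MP_6c8b03_gt.NoCrossing

/-- partial derivative in the first variable -/
noncomputable def dx (f : ℝ × ℝ → ℝ) (q : ℝ × ℝ) : ℝ := fderiv ℝ f q (1, 0)

/-- partial derivative in the second variable -/
noncomputable def dy (f : ℝ × ℝ → ℝ) (q : ℝ × ℝ) : ℝ := fderiv ℝ f q (0, 1)

/-- the left hand side of the minimal surface equation,
`(1 + f_y²) f_xx - 2 f_x f_y f_xy + (1 + f_x²) f_yy` at `q` -/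
noncomputable def mse (f : ℝ × ℝ → ℝ) (q : ℝ × ℝ) : ℝ :=
  (1 + dy f q ^ 2) * dx (dx f) q - 2 * dx f q * dy f q * dy (dx f) q
    + (1 + dx f q ^ 2) * dy (dy f) q

/-- the height of `x` above the graph of `v`, in the coordinates given by `R` -/
noncomputable def height (R : EuclideanSpace ℝ (Fin 3) ≃ₗᵢ[ℝ] EuclideanSpace ℝ (Fin 3))
    (v : ℝ × ℝ → ℝ) (x : EuclideanSpace ℝ (Fin 3)) : ℝ :=
  (R.symm x) 2 - v ((R.symm x) 0, (R.symm x) 1)

/-- the graph of `f` over `Ω` -/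
def graph (f : ℝ × ℝ → ℝ) (Ω : Set (ℝ × ℝ)) : Set (EuclideanSpace ℝ (Fin 3)) :=
  {x | (x 0, x 1) ∈ Ω ∧ x 2 = f (x 0, x 1)}

/-- `S` is near `p`, after a linear isometry, the graph of a `C²` solution of the minimal surface
equation (the local condition of the frozen statement) -/
def MinimalNear (S : Set (EuclideanSpace ℝ (Fin 3))) (p : EuclideanSpace ℝ (Fin 3)) : Prop :=
  ∃ W : Set (EuclideanSpace ℝ (Fin 3)), IsOpen W ∧ p ∈ W ∧
    ∃ R : EuclideanSpace ℝ (Fin 3) ≃ₗᵢ[ℝ] EuclideanSpace ℝ (Fin 3),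
    ∃ Ω : Set (ℝ × ℝ), IsOpen Ω ∧ ∃ f : ℝ × ℝ → ℝ, ContDiffOn ℝ 2 f Ω ∧
      (∀ q ∈ Ω, mse f q = 0) ∧ S ∩ W = W ∩ R '' graph f Ω

theorem graph_eq (f : ℝ × ℝ → ℝ) (Ω : Set (ℝ × ℝ)) :
    graph f Ω = (fun q : ℝ × ℝ => H76.MS.vec q.1 q.2 (f q)) '' Ω := by
  ext x
  constructor
  · rintro ⟨h1, h2⟩
    refine ⟨(x 0, x 1), h1, ?_⟩
    change H76.MS.vec (x 0) (x 1) (f (x 0, x 1)) = x
    rw [← h2]
    exact H76.MS.vec_eta x
  · rintro ⟨q, hq, rfl⟩
    exact ⟨hq, rfl⟩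

theorem minimalNear_iff (S : Set (EuclideanSpace ℝ (Fin 3))) (p : EuclideanSpace ℝ (Fin 3)) :
    MinimalNear S p ↔ H76.MS.MinNear S p := by
  unfold MinimalNear H76.MS.MinNear
  simp only [graph_eq]
  rfl

/-- Let `S` be an embedded minimal surface which is properly embedded in the punctured open unit
ball (the hypotheses of the frozen statement), and let `M` be a minimal disc through the origin:
the graph, in the coordinates given by a linear isometry `R`, of a `C²` solution `v` of the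
minimal surface equation near `0` with `v(0) = 0`.  Suppose that near the origin `S` does not
cross `M`: every common point `p ≠ 0` of `S` and `M` near `0` has a neighbourhood in which `S`
lies weakly on one side of `M` (for instance `S` misses `M` outside `0`).  Then the closure of
`S` is an embedded minimal surface, the origin included; if `0 ∈ closure S` then `closure S` is
`M` near `0`. -/
theorem result (S : Set (EuclideanSpace ℝ (Fin 3)))
    (hcl : closure S ∩ (ball 0 1 \ {0}) = S) (hS : ∀ p ∈ S, MinimalNear S p)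
    (R : EuclideanSpace ℝ (Fin 3) ≃ₗᵢ[ℝ] EuclideanSpace ℝ (Fin 3))
    (U : Set (ℝ × ℝ)) (hU : IsOpen U) (h0 : 0 ∈ U)
    (v : ℝ × ℝ → ℝ) (hv : ContDiffOn ℝ 2 v U) (hv0 : v 0 = 0) (hQ : ∀ q ∈ U, mse v q = 0)
    (r : ℝ) (hr : 0 < r)
    (hnc : ∀ p ∈ S, ‖p‖ < r → height R v p = 0 →
      (∀ᶠ x in 𝓝 p, x ∈ S → 0 ≤ height R v x) ∨ (∀ᶠ x in 𝓝 p, x ∈ S → height R v x ≤ 0)) :
    (∀ p ∈ closure S ∩ ball 0 1, MinimalNear (closure S) p) ∧
    (0 ∈ closure S → ∃ t > 0, ∀ x, ‖x‖ < t → (x ∈ closure S ↔ height R v x = 0)) := by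
  have h := H76.MS.final hcl (fun p hp => (minimalNear_iff S p).1 (hS p hp)) R hU h0 hv hv0 hr
    (Or.inr ⟨hQ, ?_⟩)
  · refine ⟨fun p hp => (minimalNear_iff _ p).2 (h.1 p hp), fun h0S => ?_⟩
    obtain ⟨t, ht, hts, hx⟩ := h.2 h0S
    exact ⟨t, ht, fun x hxt => (hx x hxt).trans sub_eq_zero.symm⟩
  · rintro _ ⟨p, hp, rfl⟩ hpr hpv
    rw [R.symm.norm_map] at hpr
    have hc : Filter.Tendsto R (𝓝 (R.symm p)) (𝓝 p) := by
      have := R.continuous.tendsto (R.symm p)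
      rwa [R.apply_symm_apply] at this
    have htr : ∀ Q : EuclideanSpace ℝ (Fin 3) → Prop, (∀ᶠ x in 𝓝 p, x ∈ S → Q (R.symm x)) →
        ∀ᶠ x in 𝓝 (R.symm p), x ∈ R.symm '' S → Q x := by
      intro Q hQ'
      filter_upwards [hc.eventually hQ'] with x hx
      rintro ⟨y, hy, rfl⟩
      rw [R.apply_symm_apply] at hx
      exact hx hy
    rcases hnc p hp hpr (sub_eq_zero.2 hpv) with h | h
    · refine Or.inl (htr (fun x => v (H76.MS.prj x) ≤ x 2) ?_)
      filter_upwards [h] with x hx hxS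
      exact sub_nonneg.1 (hx hxS)
    · refine Or.inr (htr (fun x => x 2 ≤ v (H76.MS.prj x)) ?_)
      filter_upwards [h] with x hx hxS
      exact sub_nonpos.1 (hx hxS)

end Pool.Agent.Results.MP_6c8b03_gt.NoCrossing
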