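import Pool.Agent.H76.MS.Assemble

set_option autoImplicit false

open Topology Metric

namespace Pool.Agent.Results.MP_6c8b03_gt.OneSided

/-- partial derivative in the first variable -/
noncomputable def dx (f : ℝ × ℝ → ℝ) (q : ℝ × ℝ) : ℝ := fderiv ℝ f q (1, 0)

/-- partial derivative in the second variable -/
noncomputable def dy (f : ℝ × ℝ → ℝ) (q : ℝ × ℝ) : ℝ := fderiv ℝ f q (0, 1)

/-- the left hand side of the minimal surface equation,
`(1 + f_y²) f_xx - 2 f_x f_y f_xy + (1 + f_x²) f_yy` at `q` -/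
noncomputable def mse (f : ℝ × ℝ → ℝ) (q : ℝ × ℝ) : ℝ :=
  (1 + dy f q ^ 2) * dx (dx f) q - 2 * dx f q * dy f q * dy (dx f) q
    + (1 + dx f q ^ 2) * dy (dy f) q

/-- the height of `x` above the graph of `v`, in the coordinates given by `R` -/
noncomputable def height (R : EuclideanSpace ℝ (Fin 3) ≃ₗᵢ[ℝ] EuclideanSpace ℝ (Fin 3))
    (v : ℝ × ℝ → ℝ) (x : EuclideanSpace ℝ (Fin 3)) : ℝ :=
  (R.symm x) 2 - v ((R.symm x) 0, (R.symm x) 1)

/-- the graph of `f` over `Ω` -/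
def graph (f : ℝ × ℝ → ℝ) (Ω : Set (ℝ × ℝ)) : Set (EuclideanSpace ℝ (Fin 3)) :=
  {x | (x 0, x 1) ∈ Ω ∧ x 2 = f (x 0, x 1)}

/-- `S` is near `p`, after a linear isometry, the graph of a `C²` solution of the minimal surface
equation (the local condition of the frozen statement) -/
def MinimalNear (S : Set (EuclideanSpace ℝ (Fin 3))) (p : EuclideanSpace ℝ (Fin 3)) : Prop :=
  ∃ W : Set (EuclideanSpace ℝ (Fin 3)), IsOpen W ∧ p ∈ W ∧
    ∃ R : EuclideanSpace ℝ (Fin 3) ≃ₗᵢ[ℝ] EuclideanSpace ℝ (Fin 3),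
    ∃ Ω : Set (ℝ × ℝ), IsOpen Ω ∧ ∃ f : ℝ × ℝ → ℝ, ContDiffOn ℝ 2 f Ω ∧
      (∀ q ∈ Ω, mse f q = 0) ∧ S ∩ W = W ∩ R '' graph f Ω

theorem graph_eq (f : ℝ × ℝ → ℝ) (Ω : Set (ℝ × ℝ)) :
    graph f Ω = (fun q : ℝ × ℝ => H76.MS.vec q.1 q.2 (f q)) '' Ω := by
  ext x
  constructor
  · rintro ⟨h1, h2⟩
    refine ⟨(x 0, x 1), h1, ?_⟩
    change H76.MS.vec (x 0) (x 1) (f (x 0, x 1)) = x
    rw [← h2]
    exact H76.MS.vec_eta x
  · rintro ⟨q, hq, rfl⟩
    exact ⟨hq, rfl⟩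

theorem minimalNear_iff (S : Set (EuclideanSpace ℝ (Fin 3))) (p : EuclideanSpace ℝ (Fin 3)) :
    MinimalNear S p ↔ H76.MS.MinNear S p := by
  unfold MinimalNear H76.MS.MinNear
  simp only [graph_eq]
  rfl

/-- Let `S` be an embedded minimal surface which is properly embedded in the punctured open unit
ball (the hypotheses of the frozen statement), and suppose that near `0`, in the coordinates
given by a linear isometry `R`, it lies weakly above the graph of a `C²` function `v` with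
`v(0) = 0` whose graph has mean curvature vector pointing up or zero (`mse v ≥ 0`).  Then the
closure of `S` is an embedded minimal surface, the origin included; if `0 ∈ closure S` then `v`
solves the minimal surface equation near `0` and `closure S` is near `0` the graph of `v`. -/
theorem result (S : Set (EuclideanSpace ℝ (Fin 3)))
    (hcl : closure S ∩ (ball 0 1 \ {0}) = S) (hS : ∀ p ∈ S, MinimalNear S p)
    (R : EuclideanSpace ℝ (Fin 3) ≃ₗᵢ[ℝ] EuclideanSpace ℝ (Fin 3))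
    (U : Set (ℝ × ℝ)) (hU : IsOpen U) (h0 : 0 ∈ U)
    (v : ℝ × ℝ → ℝ) (hv : ContDiffOn ℝ 2 v U) (hv0 : v 0 = 0) (hQ : ∀ q ∈ U, 0 ≤ mse v q)
    (r : ℝ) (hr : 0 < r) (hab : ∀ x ∈ S, ‖x‖ < r → 0 ≤ height R v x) :
    (∀ p ∈ closure S ∩ ball 0 1, MinimalNear (closure S) p) ∧
    (0 ∈ closure S → ∃ t > 0, (∀ q, ‖q‖ < t → mse v q = 0) ∧
      ∀ x, ‖x‖ < t → (x ∈ closure S ↔ height R v x = 0)) := by
  have h := H76.MS.final hcl (fun p hp => (minimalNear_iff S p).1 (hS p hp)) R hU h0 hv hv0 hr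
    (Or.inl ⟨hQ, ?_⟩)
  · refine ⟨fun p hp => (minimalNear_iff _ p).2 (h.1 p hp), fun h0S => ?_⟩
    obtain ⟨t, ht, hts, hx⟩ := h.2 h0S
    exact ⟨t, ht, fun q hq => (hts q hq).2, fun x hxt => (hx x hxt).trans sub_eq_zero.symm⟩
  · rintro _ ⟨x, hx, rfl⟩ hxr
    rw [R.symm.norm_map] at hxr
    exact sub_nonneg.1 (hab x hx hxr)

end Pool.Agent.Results.MP_6c8b03_gt.OneSided
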